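import Pool.Agent.W217.BE.Stm3
import Pool.Agent.H379R3.Reg

/-!
Project BE, part REG: regular local rings are domains; quotient by an element of order one.
-/

set_option autoImplicit false

namespace Pool.Agent.W657.BEREG

open Pool.Agent.W217.BE IsLocalRing

theorem regdom : REGDOM := by
  intro B _ _
  exact Pool.Agent.H379R3.isDomain B

theorem regq : REGQ := by
  intro B _ _ d hd
  have hdom : IsDomain B := Pool.Agent.H379R3.isDomain B
  have hdim : ringKrullDim B = ((d + 1 : ℕ) : WithBot ℕ∞) := by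
    rw [← IsLocalRing.maximalIdeal_height_eq_ringKrullDim, hd]
    rfl
  have hmb : maximalIdeal B ≠ ⊥ := by
    intro h0
    have h2 : IsField B := isField_iff_maximalIdeal_eq.2 h0
    have h3 := ringKrullDim_eq_zero_of_isField h2
    rw [hdim] at h3
    have h4 : d + 1 = 0 := by exact_mod_cast h3
    omega
  have hsq : ¬ (maximalIdeal B ≤ maximalIdeal B ^ 2) := by
    intro hle
    apply hmb
    apply Submodule.eq_bot_of_le_smul_of_le_jacobson_bot (maximalIdeal B) (maximalIdeal B)
      (maximalIdeal B).fg_of_isNoetherianRing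
    · rw [smul_eq_mul, ← pow_two]; exact hle
    · exact IsLocalRing.maximalIdeal_le_jacobson _
  obtain ⟨t, ht, ht2⟩ := Set.not_subset.1 hsq
  have ht0 : t ≠ 0 := by
    rintro rfl
    exact ht2 (Ideal.zero_mem _)
  obtain ⟨hreg, hdq⟩ := Pool.Agent.H379R3.regular_quotient t ht ht2 d hdim
  refine ⟨t, ht, fun y hy => (mul_eq_zero.1 hy).resolve_left ht0, hreg, ?_⟩
  have h5 := IsLocalRing.maximalIdeal_height_eq_ringKrullDim (R := B ⧸ Ideal.span {t})
  rw [hdq] at h5
  exact_mod_cast h5

theorem main : REGDOM ∧ REGQ := ⟨regdom, regq⟩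

end Pool.Agent.W657.BEREG
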